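import Pool.Agent.Lib.MP_342ba6_al.Core
import Pool.Agent.Lib.MP_342ba6_al.FlatIff
import Pool.Agent.Lib.MP_342ba6_al.ExtIff

/-!
Periodicity for relatively flaprojective modules: in an acyclic complex of `A/R`-flaprojective
modules with flat modules of cocycles, the modules of cocycles are `A/R`-flaprojective.

Flatness `IsFlat` over a possibly noncommutative ring is defined in
`Pool.Agent.Lib.MP_342ba6_al.Defs`: tensoring over the ring with the left module preserves
injectivity of maps of right modules.
-/

namespace Pool.Agent.Results.MP_342ba6_al.FlaprojectivePeriodicity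

universe u

open CategoryTheory Pool.Agent.Lib.MP_342ba6_al

open CategoryTheory.Abelian (Ext)

/-- A left `R`-module `C` is cotorsion if `Ext¹_R(G, C) = 0` for all flat left `R`-modules
`G`. -/
def IsCotorsion {R : Type u} [Ring R] (C : ModuleCat.{u} R) : Prop :=
  ∀ G : ModuleCat.{u} R, IsFlat R G → Subsingleton (Ext.{u} G C 1)

/-- A left `A`-module `F` is `A/R`-flaprojective (for the ring homomorphism `φ : R →+* A`) if
`Ext¹_A(F, C) = 0` for all left `A`-modules `C` whose underlying `R`-module is cotorsion. -/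
def IsFlaprojective {R A : Type u} [Ring R] [Ring A] (φ : R →+* A) (F : ModuleCat.{u} A) :
    Prop :=
  ∀ C : ModuleCat.{u} A, IsCotorsion ((ModuleCat.restrictScalars φ).obj C) →
    Subsingleton (Ext.{u} F C 1)

theorem isFlat_iff (R : Type u) [Ring R] (G : Type u) [AddCommGroup G] [Module R G] :
    IsFlat R G ↔ EqFlat R G :=
  ⟨IsFlat.eqFlat, EqFlat.isFlat⟩

theorem isCotorsion_iff {R A : Type u} [Ring R] [Ring A] (φ : R →+* A) (C : ModuleCat.{u} A) :
    IsCotorsion ((ModuleCat.restrictScalars φ).obj C) ↔ RCot φ C := by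
  rw [rcot_iff_compHom]
  constructor
  · intro h G _ _ hG
    exact (ext_iff (ModuleCat.of R G) ((ModuleCat.restrictScalars φ).obj C)).1
      (h (ModuleCat.of R G) ((isFlat_iff R G).2 hG))
  · intro h G hG
    exact (ext_iff G ((ModuleCat.restrictScalars φ).obj C)).2
      (h G ((isFlat_iff R G).1 hG))

theorem isFlaprojective_iff {R A : Type u} [Ring R] [Ring A] (φ : R →+* A)
    (F : ModuleCat.{u} A) :
    IsFlaprojective φ F ↔ ∀ (C : Type u) [AddCommGroup C] [Module A C], RCot φ C →
      E1 (RingHom.id A) F C := by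
  constructor
  · intro h C _ _ hC
    exact (ext_iff F (ModuleCat.of A C)).1
      (h (ModuleCat.of A C) ((isCotorsion_iff φ (ModuleCat.of A C)).2 hC))
  · intro h C hC
    exact (ext_iff F C).2 (h C ((isCotorsion_iff φ C).1 hC))

/-- For every ring homomorphism `φ : R →+* A` and every acyclic complex `F` of
`A/R`-flaprojective left `A`-modules whose modules of cocycles `ker dⁿ` are all flat over `A`,
every `ker dⁿ` is `A/R`-flaprojective. -/
theorem result {R A : Type u} [Ring R] [Ring A] (φ : R →+* A)
    (F : CochainComplex (ModuleCat.{u} A) ℤ) (hac : F.Acyclic)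
    (hF : ∀ n : ℤ, IsFlaprojective φ (F.X n))
    (hZ : ∀ n : ℤ, IsFlat A (LinearMap.ker (F.d n (n + 1)).hom)) :
    ∀ n : ℤ, IsFlaprojective φ (ModuleCat.of A (LinearMap.ker (F.d n (n + 1)).hom)) := by
  intro n
  rw [isFlaprojective_iff]
  intro C _ _ hC
  have hd : ∀ n : ℤ, Function.Exact (F.d n (n + 1)).hom (F.d (n + 1) (n + 1 + 1)).hom := by
    intro n
    have h1 : F.ExactAt (n + 1) := hac (n + 1)
    rw [F.exactAt_iff' n (n + 1) (n + 1 + 1) (by simp) (by simp)] at h1
    rw [ShortComplex.ShortExact.moduleCat_exact_iff_function_exact] at h1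
    exact h1
  exact complex_core φ (fun n => F.X n) (fun n => (F.d n (n + 1)).hom) hd
    (fun n C _ _ hC => (isFlaprojective_iff φ (F.X n)).1 (hF n) C hC)
    (fun n => (isFlat_iff A _).1 (hZ n)) n C hC

end Pool.Agent.Results.MP_342ba6_al.FlaprojectivePeriodicity
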